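import Pool.Agent.H59G.EA

/-!
Tensor differentials on the smooth projective varieties which are connected by covering families of
curves of genus at most one.
-/

set_option autoImplicit false
set_option linter.overlappingInstances false

open FF Pool.Agent.W602.GT Pool.Agent.Y172 Pool.Agent.R887 Pool.Agent.H59D
open Pool.Agent.N110 (IrregularityZero)
open Pool.Agent.Y742.GG (IsDoubleCoverOfLine IsEllipticTorsor)

/-- Let `X` be a smooth projective variety of dimension `n ≥ 1` with generic point `y` and function field
`K`, with finitely many covering families of curves of geometric genus at most one. The `i`-th family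
is given by a generically finite dominant rational map `Y i ⇢ X` (the homomorphism `π i` from `K` to
the function field `K' i` of `Y i`) and a fibration `Y i ⇢ B i` whose generic fibre is a curve of genus
at most one: the function field of the base is the intermediate field `L i` of `K' i`, and `K' i` is
over `L i` the function field of a curve `w² = Q(t)` with `Q` of degree at most four and not a
constant times a square (this contains all conics and the projective line), or of a torsor under an
elliptic curve. There may be several curves of the family through a general point of `X`, and they may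
be singular, and the families have neither sections nor anything in common.

Suppose that the families connect `X`: a rational function on `X` which is constant along the curves of
all families (it is algebraic over all the `L i`) is constant.

For example, `X` is a K3 surface (with one or two families of curves of genus one), an abelian variety
which is isogenous to a product of elliptic curves, or a smooth projective variety which is dominated
by a product of such varieties.

(1) All rank one subsheaves `𝓛` of the tensor powers of the cotangent sheaf of `X`, generated by
rational tensor fields `σ ≠ 0`, have numerical dimension at most zero.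

Now let `q(X) = 0`. (2) The sheaf `𝓛` is pseudo-effective if and only if some power `𝓛 ^ m`, `m ≥ 1`,
has a nonzero section. (3) If `X` has no nonzero tensor differential then no rank one subsheaf of
`(Ω¹) ^ ⊗ r`, `r ≥ 1`, is pseudo-effective.

The proof. For each family there is a value `h i` of the pull back of `σ` to `Y i`, not zero, which is
the value on vector fields which are regular at the general curves of the family (contraction with the
vector field of the curves). So the products of `h i ^ (m k)` with the sections of `𝓛 ^ (m k) (k b A)`,
restricted to the curves, have poles only on the pull back of `k b A`: the number of the sections which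
are independent over `L i` is at most `c k b`, with a constant `c` which does not depend on `m`. The
zero estimate for chains of curves (on the algebraic closure of `K`) says that there are at most
`(c' k b) ^ n` sections which are independent over `ℂ`. If two sections of `𝓛 ^ m (b A)`, with `n - 1`
pencils of hyperplane sections, give a rational map of degree `δ`, then there are `k ^ n b ^ (n - 1) δ`
independent products. It follows that `δ ≤ c'' b`. -/
theorem Pool.Agent.Results.MP_4329d7_ag.GenusOneConnected.result
    {K : Type} [Field K] [Algebra ℂ K] {N n l : ℕ} {y : Fin (N + 1) → K} (hy : NormalModel y)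
    (hn : Algebra.trdeg ℂ K = n) (hn0 : 0 < n) (hsm : SmoothModel y n)
    {K' : Fin l → Type} [∀ i, Field (K' i)] [∀ i, Algebra ℂ (K' i)] (π : ∀ i, K →ₐ[ℂ] K' i)
    (hπ : ∀ i, FiniteDimensional (π i).fieldRange (K' i)) (L : ∀ i, IntermediateField ℂ (K' i))
    (hL : ∀ i, IsDoubleCoverOfLine (L i) ∨ IsEllipticTorsor (L i))
    (hinv : ∀ a : K, (∀ i, IsAlgebraic (L i) (π i a)) → a ∈ Set.range (algebraMap ℂ K)) :
    (∀ (r : ℕ) (σ : Tensor K r), σ ≠ 0 → TensorNumDimLt y n σ 1) ∧
    (IrregularityZero y →
      (∀ (r : ℕ) (σ : Tensor K r), σ ≠ 0 → (TensorPsef y σ ↔ TensorKodairaGe n ∅ σ 0)) ∧
      (NoTensors K n → ∀ r : ℕ, 1 ≤ r → ∀ σ : Tensor K r, σ ≠ 0 → ¬ TensorPsef y σ)) := by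
  let _ : ∀ i, Algebra K (K' i) := fun i => (π i).toRingHom.toAlgebra
  have hst : ∀ i, IsScalarTower ℂ K (K' i) := fun i =>
    IsScalarTower.of_algebraMap_eq fun c => ((π i).commutes c).symm
  have hfd : ∀ i, FiniteDimensional K (K' i) := fun i => fd_of_range (π i) (hπ i)
  have key : ∀ (r : ℕ) (σ : Tensor K r), σ ≠ 0 → TensorNumDimLt y n σ 1 := fun r σ hσ =>
    Pool.Agent.H59G.numdim_curves hy hn hn0 hsm L hL hinv hσ
  refine ⟨key, fun hq => ?_⟩
  have key2 : ∀ (r : ℕ) (σ : Tensor K r), σ ≠ 0 → TensorPsef y σ → TensorKodairaGe n ∅ σ 0 :=
    fun r σ hσ hps => nonvanishing_smooth hy hn hn0 hsm hσ hq (key r σ hσ) hps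
  exact ⟨fun r σ hσ => ⟨key2 r σ hσ, psef_of_kodaira hy hn⟩,
    fun hno r hr σ hσ hps => not_kodaira hσ hr hno (key2 r σ hσ hps)⟩
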