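import Pool.Agent.H59D.InvD

/-!
Tensor differentials on the smooth projective varieties which are dominated by a variety `X'` whose
pseudo-automorphisms fix only classes in `N¹(X')` of small numerical dimension.
-/

set_option autoImplicit false

open FF Pool.Agent.W602.GT Pool.Agent.Y172 Pool.Agent.R887 Pool.Agent.N110.CC Pool.Agent.H59C
  Pool.Agent.H59D
open Pool.Agent.N110 (IrregularityZero PseudoAut)

/-- Let `X'` be a normal projective variety of dimension `n`, with generic point `y'`, and let the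
vectors `c' P` be the classes of the prime divisors in the group `N¹(X') = ℤ ^ ρ` of the divisors
modulo numerical equivalence (`ρ` is the Picard number, if `X'` is `ℚ`-factorial). Let `𝒯` be a set of
pull backs on `N¹(X') ⊗ ℝ` by pseudo-automorphisms (birational self-maps which are isomorphisms in
codimension one), and let `1 ≤ j ≤ n`. Suppose that all `ℚ`-divisors `D = K_X' + Δ` whose class is
fixed by `𝒯` have numerical dimension less than `j` (`InvariantNumDimLt`). If `j = 1` then this holds
in each of the following cases: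

(a) no pseudo-effective class in `N¹(X') ⊗ ℚ` is fixed by `𝒯`, except zero (`NoInvariantClass`);

(b) `𝒯` contains a free abelian group of rank `ρ - 1 ≥ 1` (`FreeOfMaximalRank`);

(c) `𝒯` is a group, `ρ ≥ 2`, and `𝒯` acts cocompactly on the projectivisation of the interior of some
closed convex cone of pseudo-effective classes, for instance of the closed effective cone, of the
closed movable cone or of the nef cone (`CocompactOnCone`);

(d) `ρ = 3`, and `𝒯` is a group which is not virtually cyclic (`RankThree`).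

Let `X` be a smooth projective variety which is dominated by `X'`: there is a generically finite
rational map `X' ⇢ X`, given by the homomorphism `π` of the function fields. It has nothing to do with
`𝒯`.

(1) All rank one subsheaves `L` of the tensor powers of the cotangent sheaf of `X`, generated by
rational tensor fields `σ ≠ 0`, have numerical dimension less than `j`.

Now let `j = 1` and `q(X) = 0`. (2) The sheaf `L` is pseudo-effective if and only if some power `L ^ m`,
`m ≥ 1`, has a nonzero section. (3) If `X` has no nonzero tensor differential then no rank one subsheaf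
of `(Ω¹) ^ ⊗ r`, `r ≥ 1`, is pseudo-effective. -/
theorem Pool.Agent.Results.MP_4329d7_ag.InvariantClasses.result
    {K K' : Type} [Field K] [Algebra ℂ K] [Field K'] [Algebra ℂ K'] {N N' n ρ : ℕ}
    {y : Fin (N + 1) → K} {y' : Fin (N' + 1) → K'} (hy : NormalModel y) (hy' : NormalModel y')
    (hn : Algebra.trdeg ℂ K = n) (hn' : Algebra.trdeg ℂ K' = n) (hsm : SmoothModel y n)
    {c' : Place ℂ K' → Fin ρ → ℤ} (hc' : PicardBasis y' c')
    {𝒯 : Set ((Fin ρ → ℝ) ≃ₗ[ℝ] (Fin ρ → ℝ))}
    (h𝒯 : ∀ T ∈ 𝒯, ∃ ψ, PseudoAut ψ y' ∧ IsPullBack y' c' ψ T) {j : ℕ} (hj1 : 1 ≤ j) (hjn : j ≤ n)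
    (hinv : InvariantNumDimLt y' n c' 𝒯 j ∨ (j = 1 ∧ (NoInvariantClass y' c' 𝒯 ∨
      FreeOfMaximalRank 𝒯 ∨ CocompactOnCone y' c' 𝒯 ∨ RankThree 𝒯))) (π : K →ₐ[ℂ] K') :
    (∀ (r : ℕ) (σ : Tensor K r), σ ≠ 0 → TensorNumDimLt y n σ j) ∧
    (j = 1 → IrregularityZero y →
      (∀ (r : ℕ) (σ : Tensor K r), σ ≠ 0 → (TensorPsef y σ ↔ TensorKodairaGe n ∅ σ 0)) ∧
      (NoTensors K n → ∀ r : ℕ, 1 ≤ r → ∀ σ : Tensor K r, σ ≠ 0 → ¬ TensorPsef y σ)) := by
  have hinv' : InvariantNumDimLt y' n c' 𝒯 j := inv_of hy' hn' (by omega) hc' h𝒯 hinv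
  have key : ∀ (r : ℕ) (σ : Tensor K r), σ ≠ 0 → TensorNumDimLt y n σ j := fun r σ hσ =>
    numdim_inv hy hy' hn hn' hjn hsm hc' h𝒯 hinv' π hσ
  refine ⟨key, ?_⟩
  rintro rfl hq
  have key2 : ∀ (r : ℕ) (σ : Tensor K r), σ ≠ 0 → TensorPsef y σ → TensorKodairaGe n ∅ σ 0 :=
    fun r σ hσ hps => nonvanishing_smooth hy hn (by omega) hsm hσ hq (key r σ hσ) hps
  exact ⟨fun r σ hσ => ⟨key2 r σ hσ, psef_of_kodaira hy hn⟩,
    fun hno r hr σ hσ hps => not_kodaira hσ hr hno (key2 r σ hσ hps)⟩
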