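import Pool.Agent.H59D.MultiB

/-!
Tensor differentials on the smooth projective varieties which are dominated by multi-valued rational
maps of large degree from a fixed variety.
-/

set_option autoImplicit false

open FF Pool.Agent.W602.GT Pool.Agent.Y172 Pool.Agent.R887 Pool.Agent.H59D
open Pool.Agent.N110 (IrregularityZero)

/-- Let `X` be a smooth projective variety and `X'` a normal projective variety of dimension `n`, with
generic points `y` and `y'`, and `S` a finite set of prime divisors of `X'`, and let `1 ≤ j ≤ n`.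
Suppose that for all `ε > 0` there is a multi-valued rational map `X' ← X'' → X`: a variety `X''` with a
generically finite rational map `p` to `X'`, unramified over the prime divisors of `X'` which are not in
`S`, and a dominant rational map `f` to `X`, such that the intersection number
`(f^* H)^(n-j) (p^* H')^j` is at most `ε deg f`, `H` and `H'` being hyperplane sections of `X` and `X'`.

(1) All rank one subsheaves `L` of the tensor powers of the cotangent sheaf of `X`, generated by
rational tensor fields `σ ≠ 0`, have numerical dimension less than `j`.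

Now let `j = 1` and `q(X) = 0`. (2) The sheaf `L` is pseudo-effective if and only if some power `L ^ m`,
`m ≥ 1`, has a nonzero section. (3) If `X` has no nonzero tensor differential then no rank one subsheaf
of `(Ω¹) ^ ⊗ r`, `r ≥ 1`, is pseudo-effective. -/
theorem Pool.Agent.Results.MP_4329d7_ag.LargeDegreeMaps.result
    {K K' : Type} [Field K] [Algebra ℂ K] [Field K'] [Algebra ℂ K'] {N N' n : ℕ}
    {y : Fin (N + 1) → K} {y' : Fin (N' + 1) → K'} (hy : NormalModel y) (hy' : NormalModel y')
    (hn : Algebra.trdeg ℂ K = n) (hn' : Algebra.trdeg ℂ K' = n) (hsm : SmoothModel y n)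
    {S : Set (Place ℂ K')} (hS : S.Finite) {j : ℕ} (hj1 : 1 ≤ j) (hjn : j ≤ n)
    (hmap : ∀ ε : ℝ, 0 < ε → ∃ (L : Type) (_ : Field L) (_ : Algebra ℂ L)
      (φ : K →ₐ[ℂ] L) (ψ : K' →ₐ[ℂ] L), FiniteDimensional ψ.fieldRange L ∧
        UnramifiedOutside ψ y' S ∧ MultiDegreeLe φ ψ y y' (n - j) j ε) :
    (∀ (r : ℕ) (σ : Tensor K r), σ ≠ 0 → TensorNumDimLt y n σ j) ∧
    (j = 1 → IrregularityZero y →
      (∀ (r : ℕ) (σ : Tensor K r), σ ≠ 0 → (TensorPsef y σ ↔ TensorKodairaGe n ∅ σ 0)) ∧
      (NoTensors K n → ∀ r : ℕ, 1 ≤ r → ∀ σ : Tensor K r, σ ≠ 0 → ¬ TensorPsef y σ)) := by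
  have key : ∀ (r : ℕ) (σ : Tensor K r), σ ≠ 0 → TensorNumDimLt y n σ j := fun r σ hσ =>
    tens_numdim hy hy' hn hn' (by omega) hsm hjn hS hmap hσ
  refine ⟨key, ?_⟩
  rintro rfl hq
  have key2 : ∀ (r : ℕ) (σ : Tensor K r), σ ≠ 0 → TensorPsef y σ → TensorKodairaGe n ∅ σ 0 :=
    fun r σ hσ hps => nonvanishing_smooth hy hn (by omega) hsm hσ hq (key r σ hσ) hps
  exact ⟨fun r σ hσ => ⟨key2 r σ hσ, psef_of_kodaira hy hn⟩,
    fun hno r hr σ hσ hps => not_kodaira hσ hr hno (key2 r σ hσ hps)⟩
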