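import Pool.Agent.Helper65.TD.Trace

/-!
# Tensor differentials descend along maps of small degree

Let `V` and `W` be complex projective varieties of dimension `n` and `V ⇢ W` a dominant rational map
of degree `r`. It is arbitrary: not a quotient by a group, and its ramification and the divisors which
it contracts are arbitrary. In general tensor differentials on `V` say nothing about `W`: every
projective variety is the image of a variety of general type. Let `V ⇢ B` be a rational map to a
variety `B ⊂ ℙ^N` of dimension `d`, given by rational functions `1, t_1, ..., t_N` on `V`, such that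
`V` is birational to its image in `W × B`, and let `H` be the pullback of the hyperplane class. In
other words, `W ⇢ B` is any rational map with `r` values (the `r` points of `B` which belong to a
general point of `W`, which are different), and `V` is its graph.

Let `T ≠ 0` be a section of `(Ω^p_V)^⊗k (- M H)`: a tensor differential on the smooth projective models
of `V` whose products with all monomials of degree at most `M` in the `t_j` are regular along all prime
divisors. For instance, `T` is the pullback of a section of `(Ω^p_B)^⊗k (- M)` for a smooth `B`, such as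
a section of `k K_B - M H` (`p = d`; the dimension of `W` is arbitrary), or a product of such sections
with tensor differentials of `V`.

**Theorem.** (1) If `k = 1` and `M ≥ r - 1` then `H⁰(W, Ω^p) ≠ 0`.

(2) If `M ≥ 2 k (r - 1)` then `(Ω^p_W)^⊗rk` has a nonzero section, and `H⁰(W, (Ω¹)^⊗rkp) ≠ 0`.

(3) If `M > 2 k (r - 1)` then `(Ω^p_W)^⊗rk` has nonzero sections `S, f_1 S, ..., f_d S` where the
functions `f_1, ..., f_d` on `W` are algebraically independent.

So, if `kp ≥ 1` and `M ≥ 2 k (r - 1)`, then the smooth projective models of `W` are not rationally
connected and have tensor differentials: Q1 has a positive answer for them. In (3) the dimension of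
the base of the maximal rationally connected fibration of `W` is at least `d`, since ratios of tensor
differentials are constant on rationally connected fibres.

Proof. Let `P` be a prime divisor of a model of `W`, `Q` one over it, of ramification index `e`. The lift
to `V` of a vector field which is regular at `P` is `x^(1 - e)` times a regular multiple of `∂/∂x` plus a
vector field which is regular at `Q`, where `x` is an equation of `Q` (`coeff_ge`). As `T` is
alternating in its blocks of `p` vector fields, its values on such lifts have order at least
`k (1 - e) + M a` at `Q`, where `a ≥ 0` is the pole order of the `t_j`. Let `h` be a generic linear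
combination of the `t_j`; it generates `ℂ(V)` over `ℂ(W)`. In (1) the traces of the products of `T` with
the powers `h ^ i`, `i < r`, are regular, and they are not all zero. In (2) and (3) let `F` be the
polarisation of the norm of `ℂ(V)` over `ℂ(W)`, an `r`-linear function; the values
`F(T(D_1), ..., T(D_r)) disc(h)^k` on the lifts `D_a` of `r` families of `k p` vector fields, and their
products with the norms of the `c - t_j` with constants `c`, define the sections. They are regular
since `Norm(g) disc(h)` is regular at `P` if `g` has order `(1 - e) + 2 (r - 1) a` at all `Q` over `P`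
(it is the determinant of the matrix of the traces of the `g h ^ (i + j)`, `i, j < r`), and since
norms of functions which are regular at the `Q` are regular. They are not zero since the polarisation
of the norm is `r!` times the norm on the diagonal.

The polarised norm (`Pool/Agent/Helper65/TD/NORM.lean`) was written by helper92.
-/

set_option autoImplicit false
set_option linter.overlappingInstances false

open FF Module Pool.Agent Pool.Agent.W602.GT

namespace Pool.Agent.Results.MP_4329d7_ag.SmallDegreeTensors

section

variable {K : Type} [Field K] [Algebra ℂ K]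

/-- Tensors of the type `(Ω^p)^⊗ι`: multilinear functions of `p` rational vector fields for each index
in `ι` which are alternating in each of these blocks. (For `p = 1` there is no condition.) -/
def IsBlockAlternating {ι : Type} {p : ℕ}
    (T : MultilinearMap K (fun _ : ι × Fin p => Derivation ℂ K K) K) : Prop :=
  ∀ (D : ι × Fin p → Derivation ℂ K K) (i : ι) (a b : Fin p), a ≠ b → D (i, a) = D (i, b) → T D = 0

/-- The tensor is holomorphic on the smooth projective models of the variety of dimension `n` with
function field `K`: its values on vector fields which are regular along a prime divisor are regular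
along it. -/
def IsHolomorphic {ι : Type} (n : ℕ)
    (T : MultilinearMap K (fun _ : ι => Derivation ℂ K K) K) : Prop :=
  ∀ P : Place ℂ K, Divisorial n P → ∀ D : ι → Derivation ℂ K K, (∀ x, DerReg P (D x)) →
    P.Reg (T D)

/-- The tensor is a section of `(Ω^p)^⊗ι (- M H)` on all models, where `H` is the pullback of the
hyperplane class under the map given by `1, t 1, ..., t N`: its products with the monomials of degree
at most `M` in the `t j` are regular along all prime divisors. -/
def IsTwisted {ι : Type} {N : ℕ} (n M : ℕ) (t : Fin N → K)
    (T : MultilinearMap K (fun _ : ι => Derivation ℂ K K) K) : Prop :=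
  ∀ a : Fin N → ℕ, ∑ j, a j ≤ M → ∀ P : Place ℂ K, Divisorial n P →
    ∀ D : ι → Derivation ℂ K K, (∀ x, DerReg P (D x)) → P.Reg ((∏ j, t j ^ a j) * T D)

end

/-- `H⁰(W, (Ω¹)^⊗m) = 0` for the smooth projective varieties `W` of dimension `n` with the function
field `L`. -/
def NoTensors (L : Type) [Field L] [Algebra ℂ L] (n m : ℕ) : Prop :=
  ∀ T : MultilinearMap L (fun _ : Fin m => Derivation ℂ L L) L, IsHolomorphic n T → T = 0

/-- **Tensor differentials descend along maps of small degree.** Let `K` be the function field of a
projective variety `V` of dimension `n`, `V ⇢ B` the map given by the functions `1, t 1, ..., t N`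
with image `B` of dimension `d`, `H` the pullback of the hyperplane class, and `T ≠ 0` a section of
`(Ω^p_V)^⊗k (- M H)` on all models of `V`. Let `V ⇢ W` be a dominant rational map of finite degree
`r = [K : L]`, where `L` is the function field of `W`, such that `V` is birational to its image in
`W × B` (`K = L(t)`).

(1) If `k = 1` and `r ≤ M + 1` then `W` has a nonzero holomorphic `p`-form.

(2) If `2 k (r - 1) ≤ M` then `(Ω^p_W)^⊗rk` has a section `S ≠ 0`, and `H⁰(W, (Ω¹)^⊗rkp) ≠ 0`.

(3) If `2 k (r - 1) < M` then there are such an `S` and algebraically independent functions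
`f 1, ..., f d` on `W` for which the `f i • S` are holomorphic too. -/
theorem result {n N M k p d : ℕ} {K : Type} [Field K] [Algebra ℂ K] [Algebra.EssFiniteType ℂ K]
    (hK : Algebra.trdeg ℂ K = (n : ℕ)) {t : Fin N → K}
    (hd : Algebra.trdeg ℂ (IntermediateField.adjoin ℂ (Set.range t)) = (d : ℕ))
    {T : MultilinearMap K (fun _ : Fin k × Fin p => Derivation ℂ K K) K}
    (hT : IsBlockAlternating T) (hTw : IsTwisted n M t T) (hne : T ≠ 0)
    (L : Type) [Field L] [Algebra ℂ L] [Algebra L K] [IsScalarTower ℂ L K] [FiniteDimensional L K]
    (ht : IntermediateField.adjoin L (Set.range t) = ⊤) :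
    (k = 1 → finrank L K ≤ M + 1 →
      ∃ η : AlternatingMap L (Derivation ℂ L L) L (Fin p), IsHolomorphic n η.toMultilinearMap ∧
        η ≠ 0) ∧
    (2 * k * (finrank L K - 1) ≤ M →
      (∃ S : MultilinearMap L (fun _ : (Fin (finrank L K) × Fin k) × Fin p => Derivation ℂ L L) L,
        IsBlockAlternating S ∧ IsHolomorphic n S ∧ S ≠ 0) ∧
      ¬ NoTensors L n (finrank L K * k * p)) ∧
    (2 * k * (finrank L K - 1) < M →
      ∃ (S : MultilinearMap L (fun _ : (Fin (finrank L K) × Fin k) × Fin p => Derivation ℂ L L) L)
        (f : Fin d → L), IsBlockAlternating S ∧ IsHolomorphic n S ∧ S ≠ 0 ∧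
          AlgebraicIndependent ℂ f ∧ ∀ i, IsHolomorphic n (f i • S)) := by
  have hessL : Algebra.EssFiniteType ℂ L := Pool.Agent.TH466.QG.ess_below (K := K)
  have hL : Algebra.trdeg ℂ L = n := Pool.Agent.Y184.NT.trdeg_below (K := K) hK
  have hassoc : 2 * k * (finrank L K - 1) = k * (2 * (finrank L K - 1)) := by ring
  refine ⟨fun hk hr => ?_, fun hM => ?_, fun hM => ?_⟩
  · subst hk
    obtain ⟨S, hS1, hS2, hS3⟩ := Pool.Agent.Helper65.TD.desc_form hL ht hT hTw hne hr
    let e : Fin 1 × Fin p ≃ Fin p := Equiv.uniqueProd (Fin p) (Fin 1)
    refine ⟨{ S.domDomCongr e with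
      map_eq_zero_of_eq' := fun D a b hD hab => ?_ }, fun P hP D hD => ?_, fun h0 => hS3 ?_⟩
    · exact hS1 (fun x => D (e x)) 0 a b hab hD
    · exact hS2 P hP (fun x => D (e x)) fun x => hD _
    · ext D
      have h1 := congrArg (fun η : AlternatingMap L (Derivation ℂ L L) L (Fin p) =>
        η fun a => D (e.symm a)) h0
      have h2 : S (fun x => D (e.symm (e x))) = 0 := h1
      have h3 : (fun x => D (e.symm (e x))) = D := by
        funext x
        rw [Equiv.symm_apply_apply]
      rw [h3] at h2
      exact h2
  · obtain ⟨S, hS1, hS2, hS3, -⟩ :=
      Pool.Agent.Helper65.TD.desc (d := d) hL ht hT hTw hne (hassoc ▸ hM)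
    refine ⟨⟨S, hS1, hS2, hS3⟩, fun h => hS3 ?_⟩
    let e : (Fin (finrank L K) × Fin k) × Fin p ≃ Fin (finrank L K * k * p) :=
      (finProdFinEquiv.prodCongr (Equiv.refl (Fin p))).trans finProdFinEquiv
    have h1 := h (S.domDomCongr e) fun P hP D hD => hS2 P hP (fun x => D (e x)) fun x => hD _
    ext D
    have h2 := congrArg (fun η : MultilinearMap L (fun _ : Fin (finrank L K * k * p) =>
      Derivation ℂ L L) L => η fun a => D (e.symm a)) h1
    have h3 : S (fun x => D (e.symm (e x))) = 0 := h2
    have h4 : (fun x => D (e.symm (e x))) = D := by
      funext x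
      rw [Equiv.symm_apply_apply]
    rw [h4] at h3
    exact h3
  · obtain ⟨S, hS1, hS2, hS3, hS4⟩ :=
      Pool.Agent.Helper65.TD.desc (d := d) hL ht hT hTw hne (hassoc ▸ hM.le)
    obtain ⟨f, hf1, hf2⟩ := hS4 (hassoc ▸ hM) hd
    exact ⟨S, f, hS1, hS2, hS3, hf1, hf2⟩

end Pool.Agent.Results.MP_4329d7_ag.SmallDegreeTensors
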